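import Pool.Agent.Mg.Fbf5815.G6d484b

namespace Pool.Agent.Results.MP_bf5815_lc.CountableParameter

open Pool.Agent.MP_bf5815_lc

/-- A real that is ITTM-recognizable from some ordinal is ITTM-recognizable from a countable
ordinal. -/
theorem result : ∀ (x : ℕ → Bool) (α : Ordinal.{0}), Recognizable α x →
    ∃ β : Ordinal.{0}, β.card ≤ Cardinal.aleph0 ∧ Recognizable β x := by
  intro x α h
  obtain ⟨β, h1, h2⟩ := main_thm α x h
  refine ⟨β, ?_, h2⟩
  rw [← Cardinal.ord_aleph, Cardinal.lt_ord, ← Cardinal.succ_aleph0, Order.lt_succ_iff] at h1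
  exact h1

end Pool.Agent.Results.MP_bf5815_lc.CountableParameter
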